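import Mathlib

/-! MP_339db1_al: the universal CP monoid is not generated by the images of the finite full
transformation monoids. -/

namespace Pool.Agent.Results.MP_339db1_al.NotGenerated

/-- A `d`-CP structure on a monoid. -/
structure DCP (M : Type*) [Monoid M] (d : ℕ) where
  Φ : (Fin d → M) → M
  τ : Fin d → M
  bij : Function.Bijective Φ
  proj : ∀ (m : Fin d → M) (i : Fin d), τ i * Φ m = m i

/-- The 1-CP structure `(id; 1)`. -/
def idCP (M : Type*) [Monoid M] : DCP M 1 where
  Φ m := m 0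
  τ _ := 1
  bij := by
    constructor
    · intro m n h
      funext i
      rw [Subsingleton.elim i 0]
      exact h
    · intro x
      exact ⟨fun _ => x, rfl⟩
  proj m i := by rw [one_mul, Subsingleton.elim i 0]

/-- Combination of an `s`-CP structure with `d i`-CP structures, `i < s`; the index set
`Fin (∑ i, d i)` is identified with the pairs `(i, j)` in lexicographic order. -/
def combine {M : Type*} [Monoid M] {s : ℕ} (Ψ : DCP M s) {d : Fin s → ℕ}
    (Φ : ∀ i, DCP M (d i)) : DCP M (∑ i, d i) where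
  Φ m := Ψ.Φ fun i => (Φ i).Φ fun j => m (finSigmaFinEquiv ⟨i, j⟩)
  τ k := (Φ (finSigmaFinEquiv.symm k).1).τ (finSigmaFinEquiv.symm k).2 *
    Ψ.τ (finSigmaFinEquiv.symm k).1
  bij := by
    constructor
    · intro m n h
      have h1 := Ψ.bij.1 h
      funext k
      obtain ⟨⟨i, j⟩, rfl⟩ := finSigmaFinEquiv.surjective k
      have h2 := (Φ i).bij.1 (congrFun h1 i)
      exact congrFun h2 j
    · intro x
      obtain ⟨a, ha⟩ := Ψ.bij.2 x
      choose b hb using fun i => (Φ i).bij.2 (a i)
      refine ⟨fun k => b (finSigmaFinEquiv.symm k).1 (finSigmaFinEquiv.symm k).2, ?_⟩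
      have e : ∀ i j, b (finSigmaFinEquiv.symm (finSigmaFinEquiv ⟨i, j⟩)).1
          (finSigmaFinEquiv.symm (finSigmaFinEquiv ⟨i, j⟩)).2 = b i j := fun i j =>
        congrArg (fun p : (i : Fin s) × Fin (d i) => b p.1 p.2)
          (Equiv.symm_apply_apply finSigmaFinEquiv ⟨i, j⟩)
      show Ψ.Φ (fun i => (Φ i).Φ fun j =>
        b (finSigmaFinEquiv.symm (finSigmaFinEquiv ⟨i, j⟩)).1
          (finSigmaFinEquiv.symm (finSigmaFinEquiv ⟨i, j⟩)).2) = x
      rw [← ha]
      congr 1
      funext i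
      rw [← hb i]
      congr 1
      funext j
      exact e i j
  proj m k := by
    obtain ⟨⟨i, j⟩, rfl⟩ := finSigmaFinEquiv.surjective k
    have e : (Φ (finSigmaFinEquiv.symm (finSigmaFinEquiv ⟨i, j⟩)).1).τ
        (finSigmaFinEquiv.symm (finSigmaFinEquiv ⟨i, j⟩)).2 *
        Ψ.τ (finSigmaFinEquiv.symm (finSigmaFinEquiv ⟨i, j⟩)).1 = (Φ i).τ j * Ψ.τ i :=
      congrArg (fun p : (i : Fin s) × Fin (d i) => (Φ p.1).τ p.2 * Ψ.τ p.1)
        (Equiv.symm_apply_apply finSigmaFinEquiv ⟨i, j⟩)
    rw [e, mul_assoc, Ψ.proj, (Φ i).proj]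

/-- The set S(M) of structures obtained from the CP structure and `(id; 1)` by repeated
combination. -/
inductive InS {M : Type*} [Monoid M] (cp : DCP M 2) : (d : ℕ) → DCP M d → Prop
  | base : InS cp 2 cp
  | one : InS cp 1 (idCP M)
  | comb {s : ℕ} (Ψ : DCP M s) (hΨ : InS cp s Ψ) {d : Fin s → ℕ} (Φ : ∀ i, DCP M (d i))
      (h : ∀ i, InS cp (d i) (Φ i)) : InS cp (∑ i, d i) (combine Ψ Φ)

/-- The map from the self-maps of `{1, ..., d}` to the monoid. -/
def DCP.phi {M : Type*} [Monoid M] {d : ℕ} (Φ : DCP M d) (f : Fin d → Fin d) : M :=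
  Φ.Φ fun i => Φ.τ (f i)

/-- The submonoid generated by all the images of the full transformation monoids. -/
def G {M : Type*} [Monoid M] (cp : DCP M 2) : Submonoid M :=
  Submonoid.closure {u | ∃ (d : ℕ) (Φ : DCP M d) (f : Fin d → Fin d),
    2 ≤ d ∧ InS cp d Φ ∧ u = Φ.phi f}

/-- Homomorphisms of CP monoids. -/
def IsHom {M N : Type*} [Monoid M] [Monoid N] (cp : DCP M 2) (cq : DCP N 2) (f : M →* N) : Prop :=
  (∀ i, f (cp.τ i) = cq.τ i) ∧ ∀ m : Fin 2 → M, f (cp.Φ m) = cq.Φ fun i => f (m i)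

/-- Universal (initial) CP monoid. -/
def IsUniversal (U : Type) [Monoid U] (cp : DCP U 2) : Prop :=
  ∀ (N : Type) [Monoid N] (cq : DCP N 2), ∃! f : U →* N, IsHom cp cq f

/-! ### The CP monoid of self-maps of the Cantor set -/

/-- self-maps of the Cantor set, composed from left to right -/
@[ext] structure Fn where
  f : (ℕ → Bool) → (ℕ → Bool)

instance : Monoid Fn where
  mul a b := ⟨b.f ∘ a.f⟩
  one := ⟨id⟩
  mul_assoc _ _ _ := rfl
  one_mul _ := rfl
  mul_one _ := rfl

theorem mul_f (a b : Fn) : (a * b).f = b.f ∘ a.f := rfl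
theorem one_f : (1 : Fn).f = id := rfl

def cons (b : Fin 2) (x : ℕ → Bool) : ℕ → Bool := fun n =>
  match n with
  | 0 => decide (b = 1)
  | n + 1 => x n

def hd (x : ℕ → Bool) : Fin 2 := if x 0 then 1 else 0
def tl (x : ℕ → Bool) : ℕ → Bool := fun n => x (n + 1)

theorem cons_hd_tl (x : ℕ → Bool) : cons (hd x) (tl x) = x := by
  funext n
  cases n with
  | zero =>
    show decide (hd x = 1) = x 0
    unfold hd
    cases x 0 <;> rfl
  | succ n => rfl

theorem hd_cons (b : Fin 2) (x : ℕ → Bool) : hd (cons b x) = b := by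
  fin_cases b <;> rfl

theorem tl_cons (b : Fin 2) (x : ℕ → Bool) : tl (cons b x) = x := rfl

def cpF : DCP Fn 2 where
  Φ m := ⟨fun x => (m (hd x)).f (tl x)⟩
  τ i := ⟨cons i⟩
  bij := by
    constructor
    · intro m n h
      funext i
      apply Fn.ext
      funext x
      have := congrFun (congrArg Fn.f h) (cons i x)
      simp only [hd_cons, tl_cons] at this
      exact this
    · intro g
      refine ⟨fun i => ⟨fun x => g.f (cons i x)⟩, ?_⟩
      apply Fn.ext
      funext x
      show g.f (cons (hd x) (tl x)) = g.f x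
      rw [cons_hd_tl]
  proj m i := by
    apply Fn.ext
    funext x
    show (m (hd (cons i x))).f (tl (cons i x)) = (m i).f x
    rw [hd_cons, tl_cons]

/-- the structure maps cover the Cantor set bijectively -/
theorem bij_of_InS {U : Type} [Monoid U] (cp : DCP U 2) (h : U →* Fn) (hh : IsHom cp cpF h)
    (d : ℕ) (Φ : DCP U d) (hΦ : InS cp d Φ) :
    Function.Bijective (fun p : Fin d × (ℕ → Bool) => (h (Φ.τ p.1)).f p.2) := by
  induction hΦ with
  | base =>
    simp only [hh.1]
    constructor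
    · rintro ⟨i, x⟩ ⟨j, y⟩ hxy
      have hxy' : cons i x = cons j y := hxy
      have h1 := congrArg hd hxy'
      have h2 := congrArg tl hxy'
      rw [hd_cons, hd_cons] at h1
      rw [tl_cons, tl_cons] at h2
      rw [h1, h2]
    · intro x
      exact ⟨(hd x, tl x), cons_hd_tl x⟩
  | one =>
    constructor
    · rintro ⟨i, x⟩ ⟨j, y⟩ hxy
      have h1 : (h 1).f x = (h 1).f y := hxy
      rw [map_one] at h1
      have h2 : x = y := h1
      rw [h2, Subsingleton.elim i j]
    · intro x
      refine ⟨(0, x), ?_⟩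
      show (h 1).f x = x
      rw [map_one]
      rfl
  | @comb s Ψ hΨ d Φ hΦ ih1 ih2 =>
    have e : ∀ (i : Fin s) (j : Fin (d i)) (x : ℕ → Bool),
        (h ((combine Ψ Φ).τ (finSigmaFinEquiv ⟨i, j⟩))).f x =
          (h (Ψ.τ i)).f ((h ((Φ i).τ j)).f x) := by
      intro i j x
      have : (combine Ψ Φ).τ (finSigmaFinEquiv ⟨i, j⟩) = (Φ i).τ j * Ψ.τ i :=
        congrArg (fun p : (i : Fin s) × Fin (d i) => (Φ p.1).τ p.2 * Ψ.τ p.1)
          (Equiv.symm_apply_apply finSigmaFinEquiv ⟨i, j⟩)
      rw [this, map_mul, mul_f]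
      rfl
    constructor
    · rintro ⟨k, x⟩ ⟨l, y⟩ hxy
      obtain ⟨⟨i, j⟩, rfl⟩ := finSigmaFinEquiv.surjective k
      obtain ⟨⟨i', j'⟩, rfl⟩ := finSigmaFinEquiv.surjective l
      simp only [e] at hxy
      have h1 := ih1.1 (a₁ := (i, (h ((Φ i).τ j)).f x)) (a₂ := (i', (h ((Φ i').τ j')).f y)) hxy
      obtain ⟨h2, h3⟩ := Prod.mk.inj h1
      subst h2
      have h4 := (ih2 i).1 (a₁ := (j, x)) (a₂ := (j', y)) h3
      obtain ⟨h5, h6⟩ := Prod.mk.inj h4
      rw [h5, h6]
    · intro z
      obtain ⟨⟨i, w⟩, hw⟩ := ih1.2 z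
      obtain ⟨⟨j, x⟩, hx⟩ := (ih2 i).2 w
      refine ⟨(finSigmaFinEquiv ⟨i, j⟩, x), ?_⟩
      simp only [e]
      simp only at hx hw
      rw [hx, hw]

theorem key {U : Type} [Monoid U] (cp : DCP U 2) (h : U →* Fn) (hh : IsHom cp cpF h) (u : U)
    (hu : u ∈ G cp) : Function.Injective (h u).f → Function.Surjective (h u).f := by
  induction hu using Submonoid.closure_induction with
  | mem u hu =>
    obtain ⟨d, Φ, f, _, hΦ, rfl⟩ := hu
    intro hinj
    have hb := bij_of_InS cp h hh d Φ hΦ
    have hact : ∀ (i : Fin d) (x : ℕ → Bool),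
        (h (Φ.phi f)).f ((h (Φ.τ i)).f x) = (h (Φ.τ (f i))).f x := by
      intro i x
      have h1 : Φ.τ i * Φ.phi f = Φ.τ (f i) := Φ.proj _ i
      rw [← h1, map_mul, mul_f]
      rfl
    have hfi : Function.Injective f := by
      intro i j hij
      have h1 : (h (Φ.phi f)).f ((h (Φ.τ i)).f (fun _ => true)) =
          (h (Φ.phi f)).f ((h (Φ.τ j)).f (fun _ => true)) := by
        rw [hact, hact, hij]
      have h2 := hb.1 (a₁ := (i, fun _ => true)) (a₂ := (j, fun _ => true)) (hinj h1)
      exact (Prod.mk.inj h2).1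
    have hfs : Function.Surjective f := Finite.injective_iff_surjective.1 hfi
    intro z
    obtain ⟨⟨k, x⟩, hx⟩ := hb.2 z
    obtain ⟨i, rfl⟩ := hfs k
    exact ⟨(h (Φ.τ i)).f x, (hact i x).trans hx⟩
  | one =>
    intro _
    rw [map_one]
    exact Function.surjective_id
  | mul u v _ _ ihu ihv =>
    intro hinj
    rw [map_mul, mul_f] at hinj ⊢
    have hu1 : Function.Injective (h u).f := hinj.of_comp
    have hu2 := ihu hu1
    have hv1 : Function.Injective (h v).f := by
      intro x y hxy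
      obtain ⟨x', rfl⟩ := hu2 x
      obtain ⟨y', rfl⟩ := hu2 y
      rw [hinj hxy]
    exact (ihv hv1).comp hu2

/-! ### Existence of the universal CP monoid -/

inductive Tm : Type
  | one : Tm
  | p (i : Fin 2) : Tm
  | mul (a b : Tm) : Tm
  | sg (a b : Tm) : Tm

open Tm

inductive Rel : Tm → Tm → Prop
  | refl (a) : Rel a a
  | symm {a b} : Rel a b → Rel b a
  | trans {a b c} : Rel a b → Rel b c → Rel a c
  | cmul {a b c d} : Rel a b → Rel c d → Rel (mul a c) (mul b d)
  | csg {a b c d} : Rel a b → Rel c d → Rel (sg a c) (sg b d)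
  | assoc (a b c) : Rel (mul (mul a b) c) (mul a (mul b c))
  | one_mul (a) : Rel (mul one a) a
  | mul_one (a) : Rel (mul a one) a
  | proj0 (a b) : Rel (mul (p 0) (sg a b)) a
  | proj1 (a b) : Rel (mul (p 1) (sg a b)) b
  | surj (m) : Rel (sg (mul (p 0) m) (mul (p 1) m)) m

def st : Setoid Tm := ⟨Rel, ⟨Rel.refl, Rel.symm, Rel.trans⟩⟩

def U : Type := Quotient st

instance : Monoid U where
  mul := Quotient.map₂ mul fun _ _ h1 _ _ h2 => Rel.cmul h1 h2
  one := Quotient.mk st one
  mul_assoc := by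
    rintro ⟨a⟩ ⟨b⟩ ⟨c⟩
    exact Quotient.sound (Rel.assoc a b c)
  one_mul := by
    rintro ⟨a⟩
    exact Quotient.sound (Rel.one_mul a)
  mul_one := by
    rintro ⟨a⟩
    exact Quotient.sound (Rel.mul_one a)

def sgU : U → U → U := Quotient.map₂ sg fun _ _ h1 _ _ h2 => Rel.csg h1 h2
def pU (i : Fin 2) : U := Quotient.mk st (p i)

theorem proj0U (a b : U) : pU 0 * sgU a b = a := by
  obtain ⟨a, rfl⟩ := Quotient.exists_rep a
  obtain ⟨b, rfl⟩ := Quotient.exists_rep b
  exact Quotient.sound (Rel.proj0 a b)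

theorem proj1U (a b : U) : pU 1 * sgU a b = b := by
  obtain ⟨a, rfl⟩ := Quotient.exists_rep a
  obtain ⟨b, rfl⟩ := Quotient.exists_rep b
  exact Quotient.sound (Rel.proj1 a b)

theorem surjU (m : U) : sgU (pU 0 * m) (pU 1 * m) = m := by
  obtain ⟨m, rfl⟩ := Quotient.exists_rep m
  exact Quotient.sound (Rel.surj m)

def cpU : DCP U 2 where
  Φ m := sgU (m 0) (m 1)
  τ i := pU i
  bij := by
    constructor
    · intro m n h
      have h' : sgU (m 0) (m 1) = sgU (n 0) (n 1) := h
      funext i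
      fin_cases i
      · show m 0 = n 0
        rw [← proj0U (m 0) (m 1), h', proj0U]
      · show m 1 = n 1
        rw [← proj1U (m 0) (m 1), h', proj1U]
    · intro m
      exact ⟨fun i => pU i * m, surjU m⟩
  proj m i := by
    fin_cases i
    · exact proj0U _ _
    · exact proj1U _ _

/-- evaluation of terms in a CP monoid -/
def evT {N : Type} [Monoid N] (cq : DCP N 2) : Tm → N
  | one => 1
  | p i => cq.τ i
  | mul a b => evT cq a * evT cq b
  | sg a b => cq.Φ fun i => if i = 0 then evT cq a else evT cq b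

theorem evT_rel {N : Type} [Monoid N] (cq : DCP N 2) (a b : Tm) (h : Rel a b) :
    evT cq a = evT cq b := by
  induction h with
  | refl => rfl
  | symm _ ih => exact ih.symm
  | trans _ _ ih1 ih2 => exact ih1.trans ih2
  | cmul _ _ ih1 ih2 => simp only [evT, ih1, ih2]
  | csg _ _ ih1 ih2 => simp only [evT, ih1, ih2]
  | assoc a b c => exact mul_assoc _ _ _
  | one_mul a => exact _root_.one_mul _
  | mul_one a => exact _root_.mul_one _
  | proj0 a b => simp [evT, cq.proj]
  | proj1 a b => simp [evT, cq.proj]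
  | surj m =>
    simp only [evT]
    obtain ⟨n, hn⟩ := cq.bij.2 (evT cq m)
    rw [← hn]
    congr 1
    funext i
    fin_cases i
    · simp [cq.proj]
    · simp [cq.proj]

def evU {N : Type} [Monoid N] (cq : DCP N 2) : U →* N where
  toFun := Quotient.lift (evT cq) (evT_rel cq)
  map_one' := rfl
  map_mul' := by
    rintro ⟨a⟩ ⟨b⟩
    rfl

theorem universal_U : IsUniversal U cpU := by
  intro N _ cq
  refine ⟨evU cq, ⟨fun i => rfl, fun m => ?_⟩, ?_⟩
  · show evU cq (sgU (m 0) (m 1)) = _
    obtain ⟨a, ha⟩ := Quotient.exists_rep (m 0)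
    obtain ⟨b, hb⟩ := Quotient.exists_rep (m 1)
    rw [← ha, ← hb]
    show (cq.Φ fun i => if i = 0 then evT cq a else evT cq b) = _
    congr 1
    funext i
    fin_cases i
    · show evT cq a = evU cq (m 0)
      rw [← ha]
      rfl
    · show evT cq b = evU cq (m 1)
      rw [← hb]
      rfl
  · intro f hf
    ext x
    obtain ⟨a, rfl⟩ := Quotient.exists_rep x
    show f (Quotient.mk st a) = evT cq a
    induction a with
    | one => exact map_one f
    | p i => exact hf.1 i
    | mul a b iha ihb =>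
      show f (Quotient.mk st (mul a b)) = evT cq a * evT cq b
      rw [← iha, ← ihb, ← map_mul]
      rfl
    | sg a b iha ihb =>
      have h1 := hf.2 (fun i => if i = 0 then (Quotient.mk st a : U) else (Quotient.mk st b : U))
      have h2 : cpU.Φ (fun i => if i = 0 then (Quotient.mk st a : U) else (Quotient.mk st b : U)) =
          (Quotient.mk st (sg a b) : U) := rfl
      rw [h2] at h1
      rw [h1]
      show _ = cq.Φ fun i => if i = 0 then evT cq a else evT cq b
      congr 1
      funext i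
      rw [← iha, ← ihb]
      split_ifs <;> rfl

/-- The universal CP monoid exists, and for every universal CP monoid the submonoid generated
by the images of the finite full transformation monoids is proper. -/
theorem result : (∃ (U : Type) (_ : Monoid U) (cp : DCP U 2), IsUniversal U cp) ∧
    ∀ (U : Type) [Monoid U] (cp : DCP U 2), IsUniversal U cp → G cp ≠ ⊤ := by
  refine ⟨⟨U, inferInstance, cpU, universal_U⟩, fun U _ cp hU htop => ?_⟩
  obtain ⟨h, hh, _⟩ := hU Fn cpF
  have h1 := key cp h hh (cp.τ 0) (by rw [htop]; trivial)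
  rw [hh.1] at h1
  have h2 : Function.Injective (cpF.τ 0).f := by
    intro x y hxy
    have h3 : cons 0 x = cons 0 y := hxy
    have h4 := congrArg tl h3
    rwa [tl_cons, tl_cons] at h4
  obtain ⟨x, hx⟩ := h1 h2 (fun _ => true)
  have h3 : cons 0 x = fun _ => true := hx
  have h4 : decide ((0 : Fin 2) = 1) = true := congrFun h3 0
  exact absurd h4 (by decide)

end Pool.Agent.Results.MP_339db1_al.NotGenerated
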